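import Pool.Agent.Helper813.DC.A1

set_option autoImplicit false

namespace Pool.Agent.W573.RF
open Finset DC813

variable {α : Type} [DecidableEq α]

/-- contraction of `e` -/
def con (r : Finset α → ℕ) (e : α) (X : Finset α) : ℕ := r (insert e X) - 1

theorem con_add {r : Finset α → ℕ} (hr : IsRk r) {e : α} (h : r {e} = 1) (X : Finset α) :
    con r e X + 1 = r (insert e X) := by
  have h1 := hr.mono {e} (insert e X) (by
    intro y hy
    rw [Finset.mem_singleton] at hy
    rw [hy]; exact Finset.mem_insert_self _ _)
  unfold con
  omega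

theorem con_isRk {r : Finset α → ℕ} (hr : IsRk r) {e : α} (h : r {e} = 1) : IsRk (con r e) := by
  have hc := con_add hr h
  refine ⟨?_, ?_, ?_, ?_⟩
  · have h1 := hc ∅
    have h2 : insert e (∅ : Finset α) = {e} := rfl
    rw [h2, h] at h1
    omega
  · intro X Y hXY
    have h1 := hr.mono _ _ (Finset.insert_subset_insert e hXY)
    have h2 := hc X
    have h3 := hc Y
    omega
  · intro X f
    have h1 := hr.insert_le (insert e X) f
    have h2 := hc X
    have h3 := hc (insert f X)
    rw [Finset.insert_comm] at h3
    omega
  · intro X Y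
    have h1 := hr.submod (insert e X) (insert e Y)
    rw [← Finset.insert_union_distrib, ← Finset.insert_inter_distrib] at h1
    have h2 := hc X
    have h3 := hc Y
    have h4 := hc (X ∪ Y)
    have h5 := hc (X ∩ Y)
    omega

theorem loop_all {r : Finset α → ℕ} (hr : IsRk r) {e : α} (h : r {e} = 0) (X : Finset α) :
    r (insert e X) = r X := by
  have h1 := hr.submod {e} X
  have h2 := hr.mono X (insert e X) (Finset.subset_insert _ _)
  have h3 : {e} ∪ X = insert e X := rfl
  rw [h3, h] at h1
  omega

theorem single_le {r : Finset α → ℕ} (hr : IsRk r) (e : α) : r {e} ≤ 1 := by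
  have h1 := hr.insert_le ∅ e
  rw [hr.empty] at h1
  exact h1

/-- an element outside the closure of `H` -/
theorem out_all {r : Finset α → ℕ} (hr : IsRk r) {H : Finset α} {d : α}
    (h : r (insert d H) = r H + 1) {X : Finset α} (hX : X ⊆ H) : r (insert d X) = r X + 1 := by
  have h1 := hr.submod (insert d X) H
  have h2 : insert d X ∪ H = insert d H := by
    rw [Finset.insert_union, Finset.union_eq_right.2 hX]
  have h3 := hr.mono X (insert d X ∩ H)
    (Finset.subset_inter (Finset.subset_insert _ _) hX)
  have h4 := hr.insert_le X d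
  rw [h2] at h1
  omega

theorem cl_le {r : Finset α → ℕ} (hr : IsRk r) {X Y : Finset α} {e : α} (hXY : X ⊆ Y)
    (h : r (insert e X) ≤ r X) : r (insert e Y) ≤ r Y := by
  by_contra hc
  have h0 := hr.insert_le Y e
  have h1 := out_all hr (show r (insert e Y) = r Y + 1 by omega) hXY
  omega

theorem mu_congr {r r' : Finset α → ℕ} {E : Finset α} (h : ∀ X ⊆ E, r X = r' X) :
    mu r E = mu r' E := by
  unfold mu
  rw [h E (Finset.Subset.refl _)]
  congr 1
  refine Finset.sum_congr ?_ fun _ _ => rfl
  refine Finset.filter_congr fun X hX => ?_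
  rw [h X (Finset.mem_powerset.1 hX)]

theorem beta_congr {r r' : Finset α → ℕ} {E : Finset α} (h : ∀ X ⊆ E, r X = r' X) :
    beta r E = beta r' E := by
  unfold beta
  rw [h E (Finset.Subset.refl _)]
  congr 1
  refine Finset.sum_congr rfl fun X hX => ?_
  rw [h X (Finset.mem_powerset.1 hX)]

theorem mu_empty {r : Finset α → ℕ} (hr : IsRk r) : mu r ∅ = 1 := by
  unfold mu
  rw [hr.empty]
  simp [Finset.filter_singleton, hr.empty]

theorem beta_empty {r : Finset α → ℕ} (hr : IsRk r) : beta r ∅ = 0 := by
  unfold beta
  simp [hr.empty]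

theorem nonneg : ∀ (m : ℕ) (r : Finset α → ℕ), IsRk r → ∀ E : Finset α, E.card = m →
    0 ≤ mu r E ∧ 0 ≤ beta r E := by
  intro m
  induction m with
  | zero =>
    intro r hr E hE
    rw [Finset.card_eq_zero.1 hE, mu_empty hr, beta_empty hr]
    norm_num
  | succ m ih =>
    intro r hr E hE
    obtain ⟨e, he⟩ : E.Nonempty := by
      rw [← Finset.card_pos]; omega
    have hc : (E.erase e).card = m := by rw [Finset.card_erase_of_mem he]; omega
    rcases Nat.eq_zero_or_pos (r {e}) with h0 | h0
    · obtain ⟨h1, h2⟩ := A1.mu_loop r E e he fun X _ => loop_all hr h0 X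
      rw [h1, h2]; exact ⟨le_rfl, le_rfl⟩
    · have h1 : r {e} = 1 := by have := single_le hr e; omega
      have hi := Finset.insert_erase he
      obtain ⟨i1, i2⟩ := ih r hr _ hc
      obtain ⟨j1, j2⟩ := ih (con r e) (con_isRk hr h1) _ hc
      rcases (hr.mono _ _ (Finset.erase_subset e E)).lt_or_eq with h2 | h2
      · have h3 : r (insert e (E.erase e)) = r (E.erase e) + 1 := by
          have := hr.insert_le (E.erase e) e
          rw [hi] at this ⊢
          omega
        obtain ⟨k1, k2⟩ := A1.mu_coloop r E e he (fun X hX => out_all hr h3 hX)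
          (fun X hX => hr.mono _ _ hX)
        refine ⟨k1 ▸ i1, ?_⟩
        rcases Finset.eq_empty_or_nonempty (E.erase e) with h4 | h4
        · have h5 : r E = 1 := by
            rw [hi, h4, hr.empty] at h3; exact h3
          rw [← A1.mu_eq_beta_rank_one r hr E h5, k1]; exact i1
        · rw [k2 h4]
      · rw [A1.mu_rec r (con r e) E e he h2 fun X _ => con_add hr h1 X]
        refine ⟨add_nonneg i1 j1, ?_⟩
        rcases Finset.eq_empty_or_nonempty (E.erase e) with h4 | h4
        · exfalso
          have h5 := hr.mono {e} E (Finset.singleton_subset_iff.2 he)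
          rw [← h2, h4, hr.empty] at h5
          omega
        · rw [A1.beta_rec r (con r e) E e he h4 h2 fun X _ => con_add hr h1 X]
          exact add_nonneg i2 j2

theorem mu_pos : ∀ (m : ℕ) (r : Finset α → ℕ), IsRk r → ∀ E : Finset α, E.card = m →
    (∀ e ∈ E, r {e} = 1) → 1 ≤ mu r E := by
  intro m
  induction m with
  | zero =>
    intro r hr E hE _
    rw [Finset.card_eq_zero.1 hE, mu_empty hr]
  | succ m ih =>
    intro r hr E hE hl
    obtain ⟨e, he⟩ : E.Nonempty := by
      rw [← Finset.card_pos]; omega
    have hc : (E.erase e).card = m := by rw [Finset.card_erase_of_mem he]; omega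
    have h1 := hl e he
    have hi := Finset.insert_erase he
    have i1 := ih r hr _ hc fun f hf => hl f (Finset.mem_of_mem_erase hf)
    have j1 := (nonneg m (con r e) (con_isRk hr h1) _ hc).1
    rcases (hr.mono _ _ (Finset.erase_subset e E)).lt_or_eq with h2 | h2
    · have h3 : r (insert e (E.erase e)) = r (E.erase e) + 1 := by
        have := hr.insert_le (E.erase e) e
        rw [hi] at this ⊢
        omega
      obtain ⟨k1, k2⟩ := A1.mu_coloop r E e he (fun X hX => out_all hr h3 hX)
        (fun X hX => hr.mono _ _ hX)
      exact k1 ▸ i1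
    · rw [A1.mu_rec r (con r e) E e he h2 fun X _ => con_add hr h1 X]
      linarith

/-- a hyperplane with spanning complement: `mu(H) ≤ beta(E)` -/
theorem lem1 : ∀ (m : ℕ) (r : Finset α → ℕ) (H E : Finset α), IsRk r → H.card = m → H ⊆ E →
    r H + 1 = r E → (∀ e ∈ E \ H, r (insert e H) = r E) → r (E \ H) = r E →
    mu r H ≤ beta r E := by
  intro m
  induction m with
  | zero =>
    intro r H E hr hm _ h1 h2 h3
    have hH := Finset.card_eq_zero.1 hm
    subst hH
    rw [hr.empty] at h1
    rw [← A1.mu_eq_beta_rank_one r hr E h1.symm, mu_empty hr]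
    refine mu_pos _ r hr E rfl fun e he => ?_
    have := h2 e (by simpa using he)
    rw [← h1] at this
    exact this
  | succ m ih =>
    intro r H E hr hm hHE h1 h2 h3
    obtain ⟨h, hh⟩ : H.Nonempty := by
      rw [← Finset.card_pos]; omega
    have hhE := hHE hh
    have hc : (H.erase h).card = m := by rw [Finset.card_erase_of_mem hh]; omega
    have hi := Finset.insert_erase hh
    have hiE := Finset.insert_erase hhE
    have hsub : E \ H ⊆ E.erase h := by
      intro y hy
      rw [Finset.mem_sdiff] at hy
      exact Finset.mem_erase.2 ⟨fun h' => hy.2 (h' ▸ hh), hy.1⟩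
    have hsd : E.erase h \ H.erase h = E \ H := by
      ext y
      simp only [Finset.mem_sdiff, Finset.mem_erase]
      constructor
      · rintro ⟨⟨a, b⟩, c⟩
        exact ⟨b, fun hy => c ⟨a, hy⟩⟩
      · rintro ⟨a, b⟩
        exact ⟨⟨fun h' => b (h' ▸ hh), a⟩, fun hy => b hy.2⟩
    have hrE : r (E.erase h) = r E := by
      have e1 := hr.mono _ _ hsub
      have e2 := hr.mono _ _ (Finset.erase_subset h E)
      omega
    rcases Nat.eq_zero_or_pos (r {h}) with h0 | h0
    · obtain ⟨k1, -⟩ := A1.mu_loop r H h hh fun X _ => loop_all hr h0 X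
      rw [k1]
      exact (nonneg _ r hr E rfl).2
    · have h1' : r {h} = 1 := by have := single_le hr h; omega
      have hR := con_isRk hr h1'
      have hca := con_add hr h1'
      have hne : (E.erase h).Nonempty := by
        rw [Finset.nonempty_iff_ne_empty]
        intro h4
        rw [h4, hr.empty] at hrE
        omega
      have hb := A1.beta_rec r (con r h) E h hhE hne hrE fun X _ => hca X
      have IH' : mu (con r h) (H.erase h) ≤ beta (con r h) (E.erase h) := by
        refine ih (con r h) _ _ hR hc (Finset.erase_subset_erase _ hHE) ?_ ?_ ?_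
        · have a1 := hca (H.erase h)
          have a2 := hca (E.erase h)
          rw [hi] at a1
          rw [hiE] at a2
          omega
        · intro e he
          rw [hsd] at he
          have a1 := hca (insert e (H.erase h))
          have a2 := hca (E.erase h)
          rw [Finset.insert_comm, hi, h2 e he] at a1
          rw [hiE] at a2
          omega
        · rw [hsd]
          have a1 := hca (E \ H)
          have a2 := hca (E.erase h)
          have a3 := hr.mono _ _ (Finset.subset_insert h (E \ H))
          have a4 : insert h (E \ H) ⊆ E := by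
            intro y hy
            rcases Finset.mem_insert.1 hy with rfl | hy
            · exact hhE
            · exact (Finset.mem_sdiff.1 hy).1
          have a5 := hr.mono _ _ a4
          rw [hiE] at a2
          omega
      have hn1 := (nonneg _ r hr (E.erase h) rfl).2
      rcases (hr.mono _ _ (Finset.erase_subset h H)).lt_or_eq with h5 | h5
      · have h6 : r (insert h (H.erase h)) = r (H.erase h) + 1 := by
          have := hr.insert_le (H.erase h) h
          rw [hi] at this ⊢
          omega
        obtain ⟨k1, -⟩ := A1.mu_coloop r H h hh (fun X hX => out_all hr h6 hX)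
          (fun X hX => hr.mono _ _ hX)
        have h7 : mu (con r h) (H.erase h) = mu r (H.erase h) := by
          refine mu_congr fun X hX => ?_
          have a1 := hca X
          have a2 := out_all hr h6 hX
          omega
        rw [k1, ← h7, hb]
        linarith
      · have IH : mu r (H.erase h) ≤ beta r (E.erase h) := by
          refine ih r _ _ hr hc (Finset.erase_subset_erase _ hHE) (by omega) ?_ ?_
          · intro e he
            rw [hsd] at he
            have a1 := hr.submod (insert e (H.erase h)) H
            have a2 : insert e (H.erase h) ∪ H = insert e H := by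
              rw [Finset.insert_union, Finset.union_eq_right.2 (Finset.erase_subset _ _)]
            have a3 := hr.mono (H.erase h) (insert e (H.erase h) ∩ H)
              (Finset.subset_inter (Finset.subset_insert _ _) (Finset.erase_subset _ _))
            rw [a2, h2 e he] at a1
            have a4 := hr.insert_le (H.erase h) e
            omega
          · rw [hsd]; omega
        rw [A1.mu_rec r (con r h) H h hh h5 fun X _ => hca X, hb]
        linarith

/-- adding nonloops in the closure does not decrease beta -/
theorem beta_ext : ∀ (m : ℕ) (r : Finset α → ℕ), IsRk r → ∀ E D : Finset α, D.card = m →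
    E.Nonempty → Disjoint E D → r (E ∪ D) = r E → (∀ e ∈ D, r {e} = 1) →
    beta r E ≤ beta r (E ∪ D) := by
  intro m
  induction m with
  | zero =>
    intro r hr E D hD _ _ _ _
    rw [Finset.card_eq_zero.1 hD, Finset.union_empty]
  | succ m ih =>
    intro r hr E D hD hE hdis hrk hl
    obtain ⟨d, hd⟩ : D.Nonempty := by
      rw [← Finset.card_pos]; omega
    have hc : (D.erase d).card = m := by rw [Finset.card_erase_of_mem hd]; omega
    have hdE : d ∉ E := fun h => (Finset.disjoint_left.1 hdis h) hd
    have he : (E ∪ D).erase d = E ∪ D.erase d := by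
      ext y
      simp only [Finset.mem_erase, Finset.mem_union]
      constructor
      · rintro ⟨a, b | b⟩
        · exact Or.inl b
        · exact Or.inr ⟨a, b⟩
      · rintro (a | ⟨a, b⟩)
        · exact ⟨fun h => hdE (h ▸ a), Or.inl a⟩
        · exact ⟨a, Or.inr b⟩
    have h1 : r (E ∪ D.erase d) = r E := by
      have a1 := hr.mono _ _ (Finset.subset_union_left (s₁ := E) (s₂ := D.erase d))
      have a2 := hr.mono _ _ (Finset.union_subset_union_right (s := E) (Finset.erase_subset d D))
      omega
    have h2 := ih r hr E (D.erase d) hc hE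
      (Finset.disjoint_of_subset_right (Finset.erase_subset _ _) hdis) h1
      (fun e he => hl e (Finset.mem_of_mem_erase he))
    have h3 := A1.beta_rec r (con r d) (E ∪ D) d (Finset.mem_union_right _ hd)
      (by rw [he]; exact hE.mono Finset.subset_union_left) (by rw [he, h1, hrk])
      (fun X _ => con_add hr (hl d hd) X)
    have h4 := (nonneg _ (con r d) (con_isRk hr (hl d hd)) (E ∪ D.erase d) rfl).2
    rw [h3, he]
    linarith

theorem round_ext {r : Finset α → ℕ} (hr : IsRk r) {H E : Finset α} (hHE : H ⊆ E)
    (h : r H = r E) (hH : Round r H) : Round r E := by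
  intro X Y hXY
  have h1 : X ∩ H ∪ Y ∩ H = H := by
    rw [← Finset.union_inter_distrib_right, hXY, Finset.inter_eq_right.2 hHE]
  have a1 := hr.mono _ _ (Finset.inter_subset_left (s₁ := X) (s₂ := H))
  have a2 := hr.mono _ _ (Finset.inter_subset_left (s₁ := Y) (s₂ := H))
  have a3 := hr.mono X E (hXY ▸ Finset.subset_union_left)
  have a4 := hr.mono Y E (hXY ▸ Finset.subset_union_right)
  rcases hH _ _ h1 with h2 | h2
  · left; omega
  · right; omega

theorem round_con {r : Finset α → ℕ} (hr : IsRk r) {E : Finset α} {e : α} (he : e ∈ E)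
    (h1 : r {e} = 1) (h : Round r E) : Round (con r e) (E.erase e) := by
  intro X Y hXY
  have h2 : insert e X ∪ insert e Y = E := by
    rw [← Finset.insert_union_distrib, hXY, Finset.insert_erase he]
  have a0 := con_add hr h1 (E.erase e)
  rw [Finset.insert_erase he] at a0
  have a1 := con_add hr h1 X
  have a2 := con_add hr h1 Y
  rcases h _ _ h2 with h3 | h3
  · left; omega
  · right; omega

theorem round_congr {r r' : Finset α → ℕ} {E : Finset α} (h : ∀ X ⊆ E, r X = r' X)
    (hE : Round r E) : Round r' E := by
  intro X Y hXY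
  rw [← h X (hXY ▸ Finset.subset_union_left), ← h Y (hXY ▸ Finset.subset_union_right),
    ← h E (Finset.Subset.refl _)]
  exact hE X Y hXY

/-- existence of a hyperplane -/
theorem ex_hyp {r : Finset α → ℕ} (hr : IsRk r) {E : Finset α} (h : 1 ≤ r E) :
    ∃ F ⊆ E, r F + 1 = r E ∧ ∀ e ∈ E \ F, r (insert e F) = r E := by
  obtain ⟨F, hF, hmax⟩ := Finset.exists_max_image (E.powerset.filter (fun F => r F < r E))
    (fun F => F.card) ⟨∅, by simp [hr.empty]; omega⟩
  rw [Finset.mem_filter, Finset.mem_powerset] at hF
  have key : ∀ e ∈ E \ F, r (insert e F) = r E := by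
    intro e he
    rw [Finset.mem_sdiff] at he
    have h1 : insert e F ⊆ E := Finset.insert_subset he.1 hF.1
    rcases (hr.mono _ _ h1).lt_or_eq with h2 | h2
    · have h3 := hmax (insert e F) (by
        rw [Finset.mem_filter, Finset.mem_powerset]; exact ⟨h1, h2⟩)
      rw [Finset.card_insert_of_notMem he.2] at h3
      omega
    · exact h2
  refine ⟨F, hF.1, ?_, key⟩
  obtain ⟨e, he⟩ : (E \ F).Nonempty := by
    rw [Finset.nonempty_iff_ne_empty]
    intro h0
    rw [Finset.sdiff_eq_empty_iff_subset] at h0
    have := hr.mono _ _ h0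
    omega
  have h1 := key e he
  have h2 := hr.insert_le F e
  omega

theorem beta_pos {r : Finset α → ℕ} (hr : IsRk r) {E : Finset α} (h : 1 ≤ r E)
    (hR : Round r E) (hl : ∀ e ∈ E, r {e} = 1) : 1 ≤ beta r E := by
  obtain ⟨F, hF, h1, h2⟩ := ex_hyp hr h
  have h3 : r (E \ F) = r E := by
    rcases hR F (E \ F) (Finset.union_sdiff_of_subset hF) with h3 | h3
    · omega
    · exact h3
  have h4 := lem1 _ r F E hr rfl hF h1 h2 h3
  have h5 := mu_pos _ r hr F rfl fun e he => hl e (hF he)
  linarith

end Pool.Agent.W573.RF
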