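import Pool.Agent.W573.RF.A

set_option autoImplicit false

namespace Pool.Agent.W573.RF
open Finset DC813

variable {α : Type} [DecidableEq α]

/-- a flag of non-splitting sets of ranks `k, k-1, …, 0` below `E` -/
def Fg (r : Finset α → ℕ) : ℕ → Finset α → Prop
  | 0, E => r E = 0
  | (k+1), E => r E = k + 1 ∧ Round r E ∧ ∃ H, H ⊆ E ∧ Fg r k H

theorem Fg_rank {r : Finset α → ℕ} {k : ℕ} {E : Finset α} (h : Fg r k E) : r E = k := by
  cases k with
  | zero => exact h
  | succ k => exact h.1

theorem Fg_round {r : Finset α → ℕ} (hr : IsRk r) {k : ℕ} {E : Finset α} (h : Fg r k E) :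
    Round r E := by
  cases k with
  | zero =>
    intro X Y hXY
    left
    have h0 : r E = 0 := h
    have := hr.mono X E (hXY ▸ Finset.subset_union_left)
    omega
  | succ k => exact h.2.1

theorem Fg_congr {r r' : Finset α → ℕ} : ∀ (k : ℕ) (E : Finset α), (∀ X ⊆ E, r X = r' X) →
    Fg r k E → Fg r' k E := by
  intro k
  induction k with
  | zero =>
    intro E h hE
    show r' E = 0
    rw [← h E (Finset.Subset.refl _)]
    exact hE
  | succ k ih =>
    intro E h hE
    obtain ⟨h1, h2, H, hH, h3⟩ := hE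
    exact ⟨by rw [← h E (Finset.Subset.refl _)]; exact h1, round_congr h h2, H, hH,
      ih H (fun X hX => h X (hX.trans hH)) h3⟩

theorem Fg_ext {r : Finset α → ℕ} (hr : IsRk r) {k : ℕ} {H E : Finset α} (hHE : H ⊆ E)
    (h : r E = k) (h' : Fg r k H) : Fg r k E := by
  cases k with
  | zero => exact h
  | succ k =>
    refine ⟨h, round_ext hr hHE (by rw [h, h'.1]) h'.2.1, ?_⟩
    obtain ⟨-, -, H', h1, h2⟩ := h'
    exact ⟨H', h1.trans hHE, h2⟩

/-- one step of peeling -/
theorem step {r : Finset α → ℕ} (hr : IsRk r) {k : ℕ} (hk : 1 ≤ k) {H D : Finset α}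
    (hH : r H = k) (hdis : Disjoint H D)
    (hD : ∀ d ∈ D, r (insert d H) = k + 1) (hrk : r (H ∪ D) ≤ k + 1)
    {d : α} {D' : Finset α} (hd : d ∈ D) (hdD' : d ∉ D') (hD' : D' ⊆ D) (hne : D'.Nonempty) :
    r {d} = 1 ∧ (∀ X ⊆ H, con r d X = r X) ∧ con r d (H ∪ D') = k ∧
    mu r (H ∪ insert d D') = mu r (H ∪ D') + mu (con r d) (H ∪ D') ∧
    beta r (H ∪ insert d D') = beta r (H ∪ D') + beta (con r d) (H ∪ D') := by
  have hd1 : r (insert d H) = r H + 1 := by rw [hD d hd, hH]
  have hs : r {d} = 1 := by
    have h1 := out_all hr hd1 (Finset.empty_subset H)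
    rw [hr.empty] at h1
    exact h1
  have hdH : d ∉ H := Finset.disjoint_right.1 hdis hd
  have hE : H ∪ insert d D' = insert d (H ∪ D') := Finset.union_insert _ _ _
  have hdn : d ∉ H ∪ D' := by
    rw [Finset.mem_union]
    rintro (h | h)
    · exact hdH h
    · exact hdD' h
  have her : (H ∪ insert d D').erase d = H ∪ D' := by rw [hE, Finset.erase_insert hdn]
  have hmem : d ∈ H ∪ insert d D' := by rw [hE]; exact Finset.mem_insert_self _ _
  have hsubD : insert d D' ⊆ D := Finset.insert_subset hd hD'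
  obtain ⟨d', hd'⟩ := hne
  have a1 := hD d' (hD' hd')
  have a2 := hr.mono (insert d' H) (H ∪ D') (Finset.insert_subset
    (Finset.mem_union_right _ hd') Finset.subset_union_left)
  have a3 := hr.mono (H ∪ D') (H ∪ insert d D')
    (Finset.union_subset_union_right (Finset.subset_insert _ _))
  have a4 := hr.mono (H ∪ insert d D') (H ∪ D) (Finset.union_subset_union_right hsubD)
  have hr1 : r (H ∪ D') = k + 1 := by omega
  have hr2 : r (H ∪ insert d D') = k + 1 := by omega
  have hca := con_add hr hs
  have m1 := A1.mu_rec r (con r d) (H ∪ insert d D') d hmem (by rw [her, hr1, hr2])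
    (fun X _ => hca X)
  have b1 := A1.beta_rec r (con r d) (H ∪ insert d D') d hmem
    (by rw [her]; exact ⟨d', Finset.mem_union_right _ hd'⟩) (by rw [her, hr1, hr2])
    (fun X _ => hca X)
  rw [her] at m1 b1
  refine ⟨hs, ?_, ?_, m1, b1⟩
  · intro X hX
    have e1 := hca X
    have e2 := out_all hr hd1 hX
    omega
  · have e1 := hca (H ∪ D')
    rw [← hE, hr2] at e1
    omega

theorem peel {k : ℕ} (hk : 1 ≤ k)
    (P : ∀ (r : Finset α → ℕ), IsRk r → ∀ E, Fg r k E → mu r E ≤ k * beta r E)
    {r : Finset α → ℕ} (hr : IsRk r) {H D : Finset α} (hH : Fg r k H) (hdis : Disjoint H D)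
    (hD : ∀ d ∈ D, r (insert d H) = k + 1) (hrk : r (H ∪ D) ≤ k + 1) :
    ∀ D' : Finset α, D' ⊆ D → D'.Nonempty →
      mu r (H ∪ D') ≤ mu r H + k * beta r (H ∪ D') := by
  intro D'
  induction D' using Finset.induction_on with
  | empty => intro _ h; exact absurd h Finset.not_nonempty_empty
  | insert d D'' hd ih =>
    intro hsub _
    have hdD : d ∈ D := hsub (Finset.mem_insert_self _ _)
    have hsub' : D'' ⊆ D := (Finset.subset_insert _ _).trans hsub
    have hk' := Fg_rank hH
    rcases D''.eq_empty_or_nonempty with h0 | h0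
    · subst h0
      have hd1 : r (insert d H) = r H + 1 := by rw [hD d hdD, hk']
      have hdH : d ∉ H := Finset.disjoint_right.1 hdis hdD
      have hE : H ∪ insert d ∅ = insert d H := by
        rw [Finset.union_insert, Finset.union_empty]
      have her : (insert d H).erase d = H := Finset.erase_insert hdH
      rw [hE]
      obtain ⟨k1, k2⟩ := A1.mu_coloop r (insert d H) d (Finset.mem_insert_self _ _)
        (fun X hX => out_all hr hd1 (by rw [her] at hX; exact hX))
        (fun X hX => hr.mono _ _ hX)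
      rw [her] at k1 k2
      have hHne : H.Nonempty := by
        rw [Finset.nonempty_iff_ne_empty]
        intro h
        rw [h, hr.empty] at hk'
        omega
      rw [k1, k2 hHne]
      simp
    · have IH := ih hsub' h0
      obtain ⟨hs, hc1, hc2, m1, b1⟩ := step hr hk hk' hdis hD hrk hdD hd hsub' h0
      have hR := con_isRk hr hs
      have hFc : Fg (con r d) k (H ∪ D'') :=
        Fg_ext hR Finset.subset_union_left hc2
          (Fg_congr k H (fun X hX => (hc1 X hX).symm) hH)
      have hP := P (con r d) hR _ hFc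
      rw [m1, b1, mul_add]
      linarith

theorem split {r : Finset α → ℕ} (hr : IsRk r) {k : ℕ} {E : Finset α} (h : Fg r (k + 1) E) :
    ∃ H ⊆ E, Fg r k H ∧ (∀ e ∈ E \ H, r (insert e H) = k + 1) ∧ r (E \ H) = k + 1 := by
  obtain ⟨h1, hR, H0, hH0, hF0⟩ := h
  have hk0 := Fg_rank hF0
  obtain ⟨H, hH, hmax⟩ := Finset.exists_max_image
    (E.powerset.filter (fun F => H0 ⊆ F ∧ r F = k)) (fun F => F.card)
    ⟨H0, by rw [Finset.mem_filter, Finset.mem_powerset]; exact ⟨hH0, Finset.Subset.refl _, hk0⟩⟩
  rw [Finset.mem_filter, Finset.mem_powerset] at hH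
  obtain ⟨hHE, hH0H, hHk⟩ := hH
  refine ⟨H, hHE, Fg_ext hr hH0H hHk hF0, ?_, ?_⟩
  · intro e he
    rw [Finset.mem_sdiff] at he
    have a1 := hr.insert_le H e
    have a2 := hr.mono _ _ (Finset.subset_insert e H)
    by_contra hc
    have h3 := hmax (insert e H) (by
      rw [Finset.mem_filter, Finset.mem_powerset]
      exact ⟨Finset.insert_subset he.1 hHE, hH0H.trans (Finset.subset_insert _ _), by omega⟩)
    rw [Finset.card_insert_of_notMem he.2] at h3
    omega
  · rcases hR H (E \ H) (Finset.union_sdiff_of_subset hHE) with h3 | h3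
    · omega
    · omega

/-- `mu ≤ rank * beta` for matroids with a non-splitting flag -/
theorem main : ∀ (k : ℕ), 1 ≤ k → ∀ (r : Finset α → ℕ), IsRk r → ∀ E, Fg r k E →
    mu r E ≤ k * beta r E := by
  intro k hk
  induction k, hk using Nat.le_induction with
  | base =>
    intro r hr E hE
    rw [A1.mu_eq_beta_rank_one r hr E (Fg_rank hE)]
    simp
  | succ k hk ih =>
    intro r hr E hE
    have hE1 := Fg_rank hE
    obtain ⟨H, hHE, hFH, hD, hsp⟩ := split hr hE
    have hU : H ∪ (E \ H) = E := Finset.union_sdiff_of_subset hHE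
    have hne : (E \ H).Nonempty := by
      rw [Finset.nonempty_iff_ne_empty]
      intro h
      rw [h, hr.empty] at hsp
      omega
    have h1 := peel hk ih hr hFH Finset.disjoint_sdiff hD (by rw [hU, hE1]) (E \ H)
      (Finset.Subset.refl _) hne
    rw [hU] at h1
    have h2 := lem1 _ r H E hr rfl hHE (by rw [Fg_rank hFH, hE1])
      (fun e he => by rw [hD e he, hE1]) (by rw [hsp, hE1])
    push_cast
    linarith

theorem beta_low {k : ℕ} (hk : 1 ≤ k)
    {r : Finset α → ℕ} (hr : IsRk r) {H D : Finset α} (hH : r H = k) (hdis : Disjoint H D)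
    (hD : ∀ d ∈ D, r (insert d H) = k + 1) (hrk : r (H ∪ D) ≤ k + 1)
    (hs : ∀ d ∈ D, ∀ e ∈ D, d ≠ e → r {d, e} = 2) :
    ∀ D' : Finset α, D' ⊆ D → D'.Nonempty →
      ((D'.card : ℤ) - 1) * beta r H ≤ beta r (H ∪ D') := by
  have hHne : H.Nonempty := by
    rw [Finset.nonempty_iff_ne_empty]
    intro h
    rw [h, hr.empty] at hH
    omega
  intro D'
  induction D' using Finset.induction_on with
  | empty => intro _ h; exact absurd h Finset.not_nonempty_empty
  | insert d D'' hd ih =>
    intro hsub _
    have hdD : d ∈ D := hsub (Finset.mem_insert_self _ _)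
    have hsub' : D'' ⊆ D := (Finset.subset_insert _ _).trans hsub
    rw [Finset.card_insert_of_notMem hd]
    rcases D''.eq_empty_or_nonempty with h0 | h0
    · have h1 := (nonneg _ r hr (H ∪ insert d D'') rfl).2
      rw [h0] at h1 ⊢
      simpa using h1
    · have IH := ih hsub' h0
      obtain ⟨hsd, hc1, hc2, m1, b1⟩ := step hr hk hH hdis hD hrk hdD hd hsub' h0
      have hR := con_isRk hr hsd
      have hb : beta (con r d) H = beta r H := beta_congr hc1
      have h2 := beta_ext _ (con r d) hR H D'' rfl hHne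
        (Finset.disjoint_of_subset_right hsub' hdis)
        (by rw [hc2, hc1 H (Finset.Subset.refl _), hH]) (by
          intro e he
          have e1 := con_add hr hsd {e}
          have e2 := hs d hdD e (hsub' he) (fun h => hd (h ▸ he))
          rw [e2] at e1
          omega)
      rw [b1]
      push_cast
      rw [hb] at h2
      linarith

end Pool.Agent.W573.RF
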