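import Pool.Agent.W573.RF.B
import Pool.Agent.Helper813.DC.Link

set_option autoImplicit false

namespace Pool.Agent.W573.RF
open Finset DC813

variable {α : Type} [DecidableEq α]

theorem strict {k : ℕ} (hk : 2 ≤ k)
    {r : Finset α → ℕ} (hr : IsRk r) {H D : Finset α} (hH : r H = k) (hRH : Round r H)
    (hdis : Disjoint H D)
    (hD : ∀ d ∈ D, r (insert d H) = k + 1) (hrk : r (H ∪ D) ≤ k + 1)
    (hs : ∀ d ∈ D, ∀ e ∈ D, d ≠ e → r {d, e} = 2)
    {d e : α} (hd : d ∈ D) (he : e ∈ D) (hde : d ≠ e)
    (hbad : ∀ x ∈ H, r (insert x {d, e}) = 3) :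
    ((D.card : ℤ) - 1) * beta r H + 1 ≤ beta r (H ∪ D) := by
  have hD'D : D.erase d ⊆ D := Finset.erase_subset _ _
  have heD' : e ∈ D.erase d := Finset.mem_erase.2 ⟨hde.symm, he⟩
  have hcD : D.card = (D.erase d).card + 1 := (Finset.card_erase_add_one hd).symm
  have heH : e ∉ H := Finset.disjoint_right.1 hdis he
  obtain ⟨hs1, hc1, hc2, m1, b1⟩ := step hr (by omega) hH hdis hD hrk hd
    (Finset.notMem_erase d D) hD'D ⟨e, heD'⟩
  have hlow := beta_low (by omega) hr hH hdis hD hrk hs (D.erase d) hD'D ⟨e, heD'⟩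
  rw [Finset.insert_erase hd] at b1
  have hR := con_isRk hr hs1
  have hca := con_add hr hs1
  set R := con r d with hRdef
  have hR1 : ∀ f ∈ D.erase d, R {f} = 1 := by
    intro f hf
    have e1 := hca {f}
    have e2 := hs d hd f (hD'D hf) (Finset.ne_of_mem_erase hf).symm
    rw [e2] at e1
    omega
  have hRe := hR1 e heD'
  have hRH' : R H = k := by rw [hc1 H (Finset.Subset.refl _), hH]
  have hU : insert e H ∪ (D.erase d).erase e = H ∪ D.erase d := by
    ext y
    simp only [Finset.mem_union, Finset.mem_insert, Finset.mem_erase]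
    constructor
    · rintro ((rfl | h) | h)
      · exact Or.inr ⟨hde.symm, he⟩
      · exact Or.inl h
      · exact Or.inr h.2
    · rintro (h | h)
      · exact Or.inl (Or.inr h)
      · by_cases hy : y = e
        · exact Or.inl (Or.inl hy)
        · exact Or.inr ⟨hy, h⟩
  have hRi : R (insert e H) = k := by
    have a1 := hR.mono H (insert e H) (Finset.subset_insert _ _)
    have a2 := hR.mono (insert e H) (H ∪ D.erase d) (by
      rw [← hU]; exact Finset.subset_union_left)
    omega
  have hext := beta_ext _ R hR (insert e H) ((D.erase d).erase e) rfl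
    (Finset.insert_nonempty _ _) (by
      rw [Finset.disjoint_left]
      intro y hy hy'
      rw [Finset.mem_erase, Finset.mem_erase] at hy'
      rcases Finset.mem_insert.1 hy with h | h
      · exact hy'.1 h
      · exact Finset.disjoint_left.1 hdis h hy'.2.2) (by rw [hU, hc2, hRi])
    (fun f hf => hR1 f (Finset.mem_of_mem_erase hf))
  rw [hU] at hext
  have herase : (insert e H).erase e = H := Finset.erase_insert heH
  have hHne : H.Nonempty := by
    rw [Finset.nonempty_iff_ne_empty]
    intro h
    rw [h, hr.empty] at hH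
    omega
  have hb2 := A1.beta_rec R (con R e) (insert e H) e (Finset.mem_insert_self _ _)
    (by rw [herase]; exact hHne) (by rw [herase, hRH', hRi]) (fun X _ => con_add hR hRe X)
  rw [herase] at hb2
  have hbR : beta R H = beta r H := beta_congr hc1
  have hround : Round (con R e) H := by
    have h1 : Round R (insert e H) := round_ext hR (Finset.subset_insert _ _)
      (by rw [hRH', hRi]) (round_congr (fun X hX => (hc1 X hX).symm) hRH)
    have h2 := round_con hR (Finset.mem_insert_self e H) hRe h1
    rwa [herase] at h2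
  have hpos : 1 ≤ beta (con R e) H := by
    refine beta_pos (con_isRk hR hRe) ?_ hround ?_
    · have e1 := con_add hR hRe H
      omega
    · intro x hx
      have e1 := con_add hR hRe {x}
      have e2 := hca (insert e {x})
      have e3 : insert d (insert e ({x} : Finset α)) = insert x {d, e} := by
        ext y
        simp only [Finset.mem_insert, Finset.mem_singleton]
        tauto
      rw [e3, hbad x hx] at e2
      omega
  have hc : ((D.card : ℤ)) = ((D.erase d).card : ℤ) + 1 := by exact_mod_cast hcD
  rw [hc, b1]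
  rw [hbR] at hb2
  linarith

theorem rk_le_card {r : Finset α → ℕ} (hr : IsRk r) (X : Finset α) : r X ≤ X.card := by
  induction X using Finset.induction_on with
  | empty => rw [hr.empty]; exact Nat.zero_le _
  | insert e X he ih =>
    rw [Finset.card_insert_of_notMem he]
    exact (hr.insert_le X e).trans (by omega)

theorem crit_flag [Fintype α] (n : ℕ) (hn : 2 ≤ n) (r : Finset α → ℕ) (hr : IsRk r)
    (hs : ∀ a b : α, r {a, b} = ({a, b} : Finset α).card) (hF : Fg r n univ)
    (heq : mu r univ = n * beta r univ) (hN : 2 * (Fintype.card α : ℤ) = n * (n + 1)) :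
    Crit r := by
  classical
  obtain ⟨k, rfl⟩ : ∃ k, n = k + 1 := ⟨n - 1, by omega⟩
  have hk : 1 ≤ k := by omega
  have hone : ∀ x, r {x} = 1 := by
    intro x
    have := hs x x
    simpa using this
  have hs2 : ∀ d e, d ≠ e → r {d, e} = 2 := by
    intro d e h
    rw [hs, Finset.card_pair h]
  obtain ⟨H, -, hFH, hD, hsp⟩ := split hr hF
  obtain ⟨D, hDdef⟩ : ∃ D, D = (univ : Finset α) \ H := ⟨_, rfl⟩
  rw [← hDdef] at hD hsp
  have hk' := Fg_rank hFH
  have hdis : Disjoint H D := hDdef ▸ Finset.disjoint_sdiff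
  have hU : H ∪ D = univ := hDdef ▸ Finset.union_sdiff_of_subset (Finset.subset_univ _)
  have hru : r univ = k + 1 := Fg_rank hF
  have hne : D.Nonempty := by
    rw [Finset.nonempty_iff_ne_empty]
    intro h
    rw [h, hr.empty] at hsp
    omega
  have hHne : H.Nonempty := by
    rw [Finset.nonempty_iff_ne_empty]
    intro h
    rw [h, hr.empty] at hk'
    omega
  have hrk : r (H ∪ D) ≤ k + 1 := by rw [hU, hru]
  have p := peel hk (main k hk) hr hFH hdis hD hrk D (Finset.Subset.refl _) hne
  rw [hU, heq] at p
  push_cast at p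
  have q := main k hk r hr H hFH
  have b1 := beta_pos hr (by rw [hk']; exact hk) (Fg_round hr hFH) (fun e _ => hone e)
  have low := beta_low hk hr hk' hdis hD hrk (fun d _ e _ h => hs2 d e h) D
    (Finset.Subset.refl _) hne
  rw [hU] at low
  have hup : beta r univ ≤ k * beta r H := by linarith
  have hcD2 : k + 1 ≤ D.card := by
    have := rk_le_card hr D
    omega
  have hcD : D.card = k + 1 := by
    by_contra hc
    have h1 : (k : ℤ) + 1 ≤ (D.card : ℤ) - 1 := by omega
    nlinarith
  have hline : ∀ d ∈ D, ∀ e ∈ D, d ≠ e → ∃ x ∈ H, r (insert x {d, e}) ≤ 2 := by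
    intro d hd e he hde
    by_contra hc
    push Not at hc
    have h3 : ∀ x ∈ H, r (insert x {d, e}) = 3 := by
      intro x hx
      have a := hc x hx
      have b := hr.insert_le {d, e} x
      rw [hs2 d e hde] at b
      omega
    rcases Nat.lt_or_ge k 2 with hk2 | hk2
    · obtain ⟨x, hx⟩ := hHne
      have a1 := h3 x hx
      have a2 := hr.mono _ univ (Finset.subset_univ (insert x {d, e}))
      omega
    · have h4 := strict hk2 hr hk' (Fg_round hr hFH) hdis hD hrk
        (fun d _ e _ h => hs2 d e h) hd he hde h3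
      rw [hU, hcD] at h4
      push_cast at h4
      linarith
  have hf : ∀ P ∈ D.powersetCard 2, ∃ x, x ∈ H ∧ r (insert x P) ≤ 2 := by
    intro P hP
    obtain ⟨hPD, hPc⟩ := Finset.mem_powersetCard.1 hP
    obtain ⟨d, e, hde, rfl⟩ := Finset.card_eq_two.1 hPc
    exact hline d (hPD (by simp)) e (hPD (by simp)) hde
  have : Nonempty α := ⟨hne.choose⟩
  choose! f hf1 hf2 using hf
  have hDe : ∀ d ∈ D, r (D.erase d) = k := by
    intro d hd
    have a1 := rk_le_card hr (D.erase d)
    rw [Finset.card_erase_of_mem hd, hcD] at a1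
    have a2 := hr.insert_le (D.erase d) d
    rw [Finset.insert_erase hd, hsp] at a2
    omega
  have Z1 : ∀ P ∈ D.powersetCard 2, ∀ d ∈ P, ∀ x ∈ H, r (insert x P) ≤ 2 →
      k + 1 ≤ r (insert x (D.erase d)) := by
    intro P hP d hd x hx hxP
    obtain ⟨hPD, hPc⟩ := Finset.mem_powersetCard.1 hP
    obtain ⟨e, he, hed⟩ : ∃ e ∈ P, e ≠ d := Finset.exists_mem_ne (by omega) d
    by_contra hc
    have hxe : e ≠ x := by
      rintro rfl
      exact Finset.disjoint_left.1 hdis hx (hPD he)
    have c0 : insert d ({e, x} : Finset α) ⊆ insert x P := by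
      intro y hy
      simp only [Finset.mem_insert, Finset.mem_singleton] at hy
      rcases hy with rfl | rfl | rfl
      · exact Finset.mem_insert_of_mem hd
      · exact Finset.mem_insert_of_mem he
      · exact Finset.mem_insert_self _ _
    have c1 : r (insert d {e, x}) ≤ r {e, x} := by
      rw [hs2 e x hxe]
      exact (hr.mono _ _ c0).trans hxP
    have c2 := cl_le hr (X := {e, x}) (Y := insert x (D.erase d)) (e := d) (by
      intro y hy
      simp only [Finset.mem_insert, Finset.mem_singleton] at hy
      rcases hy with rfl | rfl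
      · exact Finset.mem_insert_of_mem (Finset.mem_erase.2 ⟨hed, hPD he⟩)
      · exact Finset.mem_insert_self _ _) c1
    have c3 := hr.mono D (insert d (insert x (D.erase d))) (by
      intro y hy
      by_cases h : y = d
      · rw [h]; exact Finset.mem_insert_self _ _
      · exact Finset.mem_insert_of_mem (Finset.mem_insert_of_mem
          (Finset.mem_erase.2 ⟨h, hy⟩)))
    omega
  have Z2 : ∀ P ∈ D.powersetCard 2, ∀ d, d ∉ P → ∀ x, r (insert x P) ≤ 2 →
      r (insert x (D.erase d)) ≤ r (D.erase d) := by
    intro P hP d hd x hxP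
    obtain ⟨hPD, hPc⟩ := Finset.mem_powersetCard.1 hP
    have hPr : r P = 2 := by
      obtain ⟨a, b, hab, rfl⟩ := Finset.card_eq_two.1 hPc
      exact hs2 a b hab
    refine cl_le hr (X := P) ?_ (by rw [hPr]; exact hxP)
    intro y hy
    exact Finset.mem_erase.2 ⟨fun h => hd (h ▸ hy), hPD hy⟩
  have hex : ∀ P ∈ D.powersetCard 2, ∀ Q ∈ D.powersetCard 2, P ≠ Q → ∃ d ∈ P, d ∉ Q := by
    intro P hP Q hQ hPQ
    by_contra hc
    push Not at hc
    have h1 := (Finset.mem_powersetCard.1 hP).2
    have h2 := (Finset.mem_powersetCard.1 hQ).2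
    exact hPQ (Finset.eq_of_subset_of_card_le (fun y hy => hc y hy) (by omega))
  have hinj : Set.InjOn f ((D.powersetCard 2 : Finset (Finset α)) : Set (Finset α)) := by
    intro P hP Q hQ hPQ
    by_contra hne'
    have hP' : P ∈ D.powersetCard 2 := hP
    have hQ' : Q ∈ D.powersetCard 2 := hQ
    obtain ⟨d, hd, hdQ⟩ := hex P hP' Q hQ' hne'
    have z1 := Z1 P hP' d hd (f P) (hf1 P hP') (hf2 P hP')
    have z2 := Z2 Q hQ' d hdQ (f Q) (hf2 Q hQ')
    have hdD : d ∈ D := (Finset.mem_powersetCard.1 hP').1 hd
    rw [hDe d hdD, ← hPQ] at z2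
    omega
  have himg : (D.powersetCard 2).image f = H := by
    refine Finset.eq_of_subset_of_card_le ?_ ?_
    · intro x hx
      obtain ⟨P, hP, rfl⟩ := Finset.mem_image.1 hx
      exact hf1 P hP
    · rw [Finset.card_image_of_injOn hinj, Finset.card_powersetCard, hcD]
      have h1 : H.card + D.card = Fintype.card α := by
        rw [← Finset.card_union_of_disjoint hdis, hU, Finset.card_univ]
      have h2 : 2 * (k + 1).choose 2 = (k + 1) * k := by
        rw [Nat.choose_two_right]
        exact Nat.mul_div_cancel' (Nat.even_mul_pred_self (k + 1)).two_dvd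
      have h3 : (2 * (H.card : ℤ)) = (k + 1) * k := by
        have h4 : (H.card : ℤ) + (k + 1) = Fintype.card α := by
          have : ((H.card + D.card : ℕ) : ℤ) = (Fintype.card α : ℤ) := by exact_mod_cast h1
          rw [hcD] at this
          push_cast at this
          exact this
        push_cast at hN
        linear_combination 2 * h4 + hN
      have h5 : 2 * H.card = (k + 1) * k := by exact_mod_cast h3
      omega
  have hfl : ∀ d ∈ D, ∃ F : Finset α, D.erase d ⊆ F ∧ Flat r F ∧ r F = k := by
    intro d hd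
    obtain ⟨F, h1, h2, h3⟩ := Link.exists_flat r hr (D.erase d)
    exact ⟨F, h1, h2, by rw [h3, hDe d hd]⟩
  have hmemF : ∀ (F X : Finset α) (y : α), Flat r F → X ⊆ F → r (insert y X) ≤ r X → y ∈ F := by
    intro F X y hFl hX h
    by_contra hy
    have h1 := hFl y hy
    have h2 := cl_le hr hX h
    omega
  intro x
  by_cases hx : x ∈ H
  · rw [← himg] at hx
    obtain ⟨P, hP, rfl⟩ := Finset.mem_image.1 hx
    obtain ⟨hPD, hPc⟩ := Finset.mem_powersetCard.1 hP
    obtain ⟨a, c, hac, hPac⟩ := Finset.card_eq_two.1 hPc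
    have haP : a ∈ P := by rw [hPac]; simp
    have hcP : c ∈ P := by rw [hPac]; simp
    obtain ⟨F₁, f1, f2, f3⟩ := hfl a (hPD haP)
    obtain ⟨F₂, g1, g2, g3⟩ := hfl c (hPD hcP)
    refine ⟨F₁, F₂, f2, g2, ?_, ?_, ?_⟩
    · intro hxF
      have z1 := Z1 P hP a haP (f P) (hf1 P hP) (hf2 P hP)
      have := hr.mono _ F₁ (Finset.insert_subset hxF f1)
      omega
    · intro hxF
      have z1 := Z1 P hP c hcP (f P) (hf1 P hP) (hf2 P hP)
      have := hr.mono _ F₂ (Finset.insert_subset hxF g1)
      omega
    · intro y hy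
      by_cases hyH : y ∈ H
      · rw [← himg] at hyH
        obtain ⟨Q, hQ, rfl⟩ := Finset.mem_image.1 hyH
        have hPQ : P ≠ Q := fun h => hy (by rw [h])
        obtain ⟨d, hd, hdQ⟩ := hex P hP Q hQ hPQ
        have z2 := Z2 Q hQ d hdQ (f Q) (hf2 Q hQ)
        rw [hPac, Finset.mem_insert, Finset.mem_singleton] at hd
        rcases hd with rfl | rfl
        · exact Or.inl (hmemF F₁ _ _ f2 f1 z2)
        · exact Or.inr (hmemF F₂ _ _ g2 g1 z2)
      · have hyD : y ∈ D := by
          have : y ∈ H ∪ D := by rw [hU]; exact Finset.mem_univ y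
          rcases Finset.mem_union.1 this with h | h
          · exact absurd h hyH
          · exact h
        by_cases hya : y = a
        · exact Or.inr (g1 (Finset.mem_erase.2 ⟨by rw [hya]; exact hac, hyD⟩))
        · exact Or.inl (f1 (Finset.mem_erase.2 ⟨hya, hyD⟩))
  · have hxD : x ∈ D := by
      have : x ∈ H ∪ D := by rw [hU]; exact Finset.mem_univ x
      rcases Finset.mem_union.1 this with h | h
      · exact absurd h hx
      · exact h
    obtain ⟨F, f1, f2, f3⟩ := hfl x hxD
    refine ⟨H, F, ?_, f2, hx, ?_, ?_⟩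
    · intro e he
      have heD : e ∈ D := by
        have : e ∈ H ∪ D := by rw [hU]; exact Finset.mem_univ e
        rcases Finset.mem_union.1 this with h | h
        · exact absurd h he
        · exact h
      rw [hD e heD, hk']
      omega
    · intro hxF
      have h1 : D ⊆ F := by
        intro y hy
        by_cases h : y = x
        · rw [h]; exact hxF
        · exact f1 (Finset.mem_erase.2 ⟨h, hy⟩)
      have := hr.mono _ _ h1
      omega
    · intro y hy
      have : y ∈ H ∪ D := by rw [hU]; exact Finset.mem_univ y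
      rcases Finset.mem_union.1 this with h | h
      · exact Or.inl h
      · exact Or.inr (f1 (Finset.mem_erase.2 ⟨hy, h⟩))

end Pool.Agent.W573.RF
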