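import Pool.Agent.W573.RF.C
import Pool.Agent.Helper813.DC.A9
import Pool.Agent.Helper813.DC.B7
import Pool.Agent.Helper813.DC.RankN

set_option autoImplicit false

namespace Pool.Agent.W573.RF
open Finset DC813

theorem round_of_flat {α : Type} [Fintype α] [DecidableEq α] (r : Finset α → ℕ) (hr : IsRk r)
    (F : Finset α) (hF : Flat r F)
    (h : ¬ ∃ F₁ F₂ : Finset α, Flat r F₁ ∧ Flat r F₂ ∧ F₁ ⊂ F ∧ F₂ ⊂ F ∧ F₁ ∪ F₂ = F) :
    Round r F := by
  intro X Y hXY
  by_contra hcon
  push Not at hcon
  obtain ⟨F₁, h1, h2, h3⟩ := Link.exists_flat r hr X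
  obtain ⟨F₂, h4, h5, h6⟩ := Link.exists_flat r hr Y
  have hXF : X ⊆ F := hXY ▸ Finset.subset_union_left
  have hYF : Y ⊆ F := hXY ▸ Finset.subset_union_right
  have hsub : ∀ (G Z : Finset α), Z ⊆ F → Z ⊆ G → r G = r Z → G ⊆ F := by
    intro G Z hZF hZG hG y hy
    by_contra hyF
    have a1 := hF y hyF
    have a2 : r (insert y Z) ≤ r Z := by
      rw [← hG]
      exact hr.mono (insert y Z) G (Finset.insert_subset hy hZG)
    have a3 := cl_le hr hZF a2
    omega
  have s1 := hsub F₁ X hXF h1 h3
  have s2 := hsub F₂ Y hYF h4 h6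
  refine h ⟨F₁, F₂, h2, h5, ?_, ?_, ?_⟩
  · refine s1.ssubset_of_ne ?_
    intro h'
    apply hcon.1
    rw [← h3, h']
  · refine s2.ssubset_of_ne ?_
    intro h'
    apply hcon.2
    rw [← h6, h']
  · refine Finset.Subset.antisymm (Finset.union_subset s1 s2) ?_
    rw [← hXY]
    exact Finset.union_subset_union h1 h4

theorem card_eq {α : Type} [Fintype α] [DecidableEq α] (n : ℕ)
    (r : Finset α → ℕ) (hr : IsRk r)
    (hs : ∀ a b : α, r {a, b} = ({a, b} : Finset α).card)
    (hχ : (∑ X : Finset α, (-1 : Polynomial ℤ) ^ X.card * Polynomial.X ^ (r Finset.univ - r X))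
        = ∏ i ∈ Finset.Icc 1 n, (Polynomial.X - Polynomial.C (i : ℤ))) :
    2 * (Fintype.card α : ℤ) = n * (n + 1) := by
  classical
  have hRn := RankN.rank_eq n r hr hs hχ
  obtain ⟨q0, q1, q2, q3, q4⟩ := B6.j13629_Q n
  rw [← hχ] at q0 q1 q2 q3 q4
  have p1 := B6.j13629_P r hr 1 (by norm_num)
  rw [show r univ + 3 - 1 = n + 2 by omega] at p1
  rw [p1] at q2
  have hS1 : ∑ X ∈ (univ : Finset (Finset α)).filter (fun X => r X = 1), (-1 : ℤ) ^ X.card =
      -(Fintype.card α : ℤ) := by
    have h1 : (univ : Finset (Finset α)).filter (fun X => r X = 1) =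
        (univ : Finset α).powersetCard 1 := by
      ext X
      rw [Finset.mem_filter, Finset.mem_powersetCard, B6.j13629_one_iff r hr hs X]
      simp
    rw [h1, Finset.sum_congr rfl (g := fun _ => (-1 : ℤ))]
    · rw [Finset.sum_const, Finset.card_powersetCard, Nat.choose_one_right, Finset.card_univ]
      simp
    · intro X hX
      rw [(Finset.mem_powersetCard.1 hX).2, pow_one]
  rw [hS1] at q2
  linarith

theorem chi_mu_beta {α : Type} [Fintype α] [DecidableEq α] (n : ℕ) (hn : 1 ≤ n)
    (r : Finset α → ℕ) (hR : IsRk r) (x : α) (hrk : r univ = n)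
    (hχ : (∑ X : Finset α, (-1 : Polynomial ℤ) ^ X.card * Polynomial.X ^ (r Finset.univ - r X))
        = ∏ i ∈ Finset.Icc 1 n, (Polynomial.X - Polynomial.C (i : ℤ))) :
    mu r univ = n * beta r univ := by
  classical
  have hle : ∀ X, r X ≤ n := fun X => hrk ▸ hR.mono X univ (Finset.subset_univ X)
  have hmu : mu r univ = n.factorial := by
    have h4 := congrArg (Polynomial.eval 0) hχ
    rw [Polynomial.eval_finset_sum, Polynomial.eval_prod] at h4
    simp only [Polynomial.eval_sub, Polynomial.eval_X, Polynomial.eval_C] at h4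
    rw [A9.A9_f0] at h4
    unfold mu
    have h5 : ∑ X ∈ (univ : Finset α).powerset.filter (fun X => r X = r univ),
        (-1 : ℤ) ^ X.card = (-1) ^ n * (n.factorial : ℤ) := by
      rw [← h4, Finset.sum_filter, Finset.powerset_univ]
      refine Finset.sum_congr rfl (fun X _ => ?_)
      rw [Polynomial.eval_mul, Polynomial.eval_pow, Polynomial.eval_pow, Polynomial.eval_neg,
        Polynomial.eval_one, Polynomial.eval_X]
      have h6 := hle X
      rw [hrk]
      by_cases h7 : r X = n
      · rw [if_pos h7, h7]; simp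
      · rw [if_neg h7, zero_pow (by omega), mul_zero]
    rw [h5, hrk, ← mul_assoc, ← pow_add, ← two_mul, pow_mul]
    simp
  have hbe : beta r univ = (n - 1).factorial := by
    have h4 := congrArg (fun p => Polynomial.eval 1 (Polynomial.derivative p)) hχ
    simp only [Polynomial.derivative_sum, Polynomial.eval_finset_sum, A9.A9_d] at h4
    obtain ⟨k, rfl⟩ : ∃ k, n = k + 1 := ⟨n - 1, by omega⟩
    have h5 : Finset.Icc 1 (k + 1) = insert 1 (Finset.Icc 2 (k + 1)) := by
      ext y; simp only [Finset.mem_Icc, Finset.mem_insert]; omega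
    rw [h5, Finset.prod_insert (by simp), Polynomial.derivative_mul] at h4
    simp only [Polynomial.eval_add, Polynomial.eval_mul, Polynomial.eval_sub, Polynomial.eval_X,
      Polynomial.eval_C, Polynomial.derivative_sub, Polynomial.derivative_X,
      Polynomial.derivative_C, Polynomial.eval_one, Polynomial.eval_zero, sub_zero, one_mul,
      Nat.cast_one, sub_self, zero_mul, add_zero, Polynomial.eval_prod] at h4
    rw [A9.A9_f1] at h4
    have h6 : ∀ X : Finset α, (((r univ - r X : ℕ)) : ℤ) = (k + 1 : ℤ) - r X := by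
      intro X
      rw [hrk, Nat.cast_sub (hle X)]
      push_cast
      ring
    simp only [h6, mul_sub, Finset.sum_sub_distrib, ← Finset.sum_mul] at h4
    have h7 : ∑ X : Finset α, (-1 : ℤ) ^ X.card = 0 := by
      have := Finset.sum_powerset_neg_one_pow_card_of_nonempty (x := (univ : Finset α))
        ⟨x, Finset.mem_univ x⟩
      rwa [Finset.powerset_univ] at this
    rw [h7, zero_mul, zero_sub] at h4
    unfold beta
    rw [Finset.powerset_univ, hrk]
    have h8 : ∑ X : Finset α, (-1 : ℤ) ^ X.card * (r X : ℤ) =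
        -((-1) ^ k * (k.factorial : ℤ)) := by linarith
    rw [h8, pow_succ]
    have h9 : ((-1 : ℤ) ^ k) * (-1) ^ k = 1 := by
      rw [← pow_add, ← two_mul, pow_mul]; simp
    simp only [Nat.add_sub_cancel]
    linear_combination (k.factorial : ℤ) * h9
  rw [hmu, hbe]
  obtain ⟨k, rfl⟩ : ∃ k, n = k + 1 := ⟨n - 1, by omega⟩
  rw [Nat.factorial_succ]
  simp

theorem crit_all {α : Type} [Fintype α] [DecidableEq α] (n : ℕ) (hn : 1 ≤ n)
    (r : Finset α → ℕ) (hr : IsRk r)
    (hs : ∀ a b : α, r {a, b} = ({a, b} : Finset α).card)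
    (hχ : (∑ X : Finset α, (-1 : Polynomial ℤ) ^ X.card * Polynomial.X ^ (r Finset.univ - r X))
        = ∏ i ∈ Finset.Icc 1 n, (Polynomial.X - Polynomial.C (i : ℤ)))
    (hF : Fg r n univ) : Crit r := by
  have hrk := Fg_rank hF
  have hone : ∀ x, r {x} = 1 := by
    intro x
    have := hs x x
    simpa using this
  rcases Nat.lt_or_ge n 2 with hn2 | hn2
  · intro x
    refine ⟨∅, ∅, ?_, ?_, by simp, by simp, ?_⟩
    · intro e _
      rw [hr.empty]
      have : insert e (∅ : Finset α) = {e} := rfl
      rw [this, hone]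
      norm_num
    · intro e _
      rw [hr.empty]
      have : insert e (∅ : Finset α) = {e} := rfl
      rw [this, hone]
      norm_num
    · intro y hy
      exfalso
      have h1 := hs y x
      have h2 := hr.mono {y, x} univ (Finset.subset_univ _)
      rw [Finset.card_pair hy] at h1
      omega
  · obtain ⟨x, -⟩ : (univ : Finset α).Nonempty := by
      rw [Finset.nonempty_iff_ne_empty]
      intro h
      rw [h, hr.empty] at hrk
      omega
    exact crit_flag n hn2 r hr hs hF (chi_mu_beta n hn r hr x hrk hχ) (card_eq n r hr hs hχ)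

end Pool.Agent.W573.RF
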