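import Pool.Agent.W573.RF.C
import Pool.Agent.Helper813.DC.Link

set_option autoImplicit false

namespace Pool.Agent.W573.RF
open Finset DC813

variable {α : Type} [DecidableEq α]

theorem peel' {k : ℕ} (hk : 1 ≤ k)
    {r : Finset α → ℕ} (hr : IsRk r) {H D : Finset α} (hk' : r H = k) (hdis : Disjoint H D)
    (hD : ∀ d ∈ D, r (insert d H) = k + 1) (hrk : r (H ∪ D) ≤ k + 1)
    (hX : ∀ d ∈ D, ∀ D' ⊆ D, D'.Nonempty → d ∉ D' →
      mu (con r d) (H ∪ D') ≤ k * beta (con r d) (H ∪ D')) :
    ∀ D' : Finset α, D' ⊆ D → D'.Nonempty →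
      mu r (H ∪ D') ≤ mu r H + k * beta r (H ∪ D') := by
  intro D'
  induction D' using Finset.induction_on with
  | empty => intro _ h; exact absurd h Finset.not_nonempty_empty
  | insert d D'' hd ih =>
    intro hsub _
    have hdD : d ∈ D := hsub (Finset.mem_insert_self _ _)
    have hsub' : D'' ⊆ D := (Finset.subset_insert _ _).trans hsub
    rcases D''.eq_empty_or_nonempty with h0 | h0
    · subst h0
      have hd1 : r (insert d H) = r H + 1 := by rw [hD d hdD, hk']
      have hdH : d ∉ H := Finset.disjoint_right.1 hdis hdD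
      have hE : H ∪ insert d ∅ = insert d H := by
        rw [Finset.union_insert, Finset.union_empty]
      have her : (insert d H).erase d = H := Finset.erase_insert hdH
      rw [hE]
      obtain ⟨k1, k2⟩ := A1.mu_coloop r (insert d H) d (Finset.mem_insert_self _ _)
        (fun X hX => out_all hr hd1 (by rw [her] at hX; exact hX))
        (fun X hX => hr.mono _ _ hX)
      rw [her] at k1 k2
      have hHne : H.Nonempty := by
        rw [Finset.nonempty_iff_ne_empty]
        intro h
        rw [h, hr.empty] at hk'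
        omega
      rw [k1, k2 hHne]
      simp
    · have IH := ih hsub' h0
      obtain ⟨hs, hc1, hc2, m1, b1⟩ := step hr hk hk' hdis hD hrk hdD hd hsub' h0
      have hP := hX d hdD D'' hsub' h0 hd
      rw [m1, b1, mul_add]
      linarith

theorem round_one {r : Finset α → ℕ} (hr : IsRk r) {E : Finset α} (h : r E = 1) :
    Round r E := by
  intro X Y hXY
  have h1 := hr.submod X Y
  rw [hXY] at h1
  have a1 := hr.mono X E (hXY ▸ Finset.subset_union_left)
  have a2 := hr.mono Y E (hXY ▸ Finset.subset_union_right)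
  omega

theorem Fg_one {r : Finset α → ℕ} (hr : IsRk r) {E : Finset α} (h : r E = 1) : Fg r 1 E :=
  ⟨h, round_one hr h, ∅, Finset.empty_subset _, hr.empty⟩

theorem Fg_two {r : Finset α → ℕ} (hr : IsRk r) {E : Finset α} (h : r E = 2) {a b c : α}
    (ha : a ∈ E) (hb : b ∈ E) (hc : c ∈ E) (hab : r {a, b} = 2) (hac : r {a, c} = 2)
    (hbc : r {b, c} = 2) : Fg r 2 E := by
  have h1 : r {a} = 1 := by
    have e1 := hr.insert_le {a} b
    have e2 : insert b ({a} : Finset α) = {a, b} := by
      rw [Finset.pair_comm]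
    rw [e2, hab] at e1
    have e3 := single_le hr a
    omega
  refine ⟨h, ?_, {a}, Finset.singleton_subset_iff.2 ha, Fg_one hr h1⟩
  intro X Y hXY
  have a1 := hr.mono X E (hXY ▸ Finset.subset_union_left)
  have a2 := hr.mono Y E (hXY ▸ Finset.subset_union_right)
  have key : ∀ (Z : Finset α) (x y : α), x ∈ Z → y ∈ Z → r {x, y} = 2 → 2 ≤ r Z := by
    intro Z x y hx hy hxy
    rw [← hxy]
    refine hr.mono _ _ ?_
    intro z hz
    rw [Finset.mem_insert, Finset.mem_singleton] at hz
    rcases hz with rfl | rfl <;> assumption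
  rw [← hXY, Finset.mem_union] at ha hb hc
  rcases ha with ha | ha <;> rcases hb with hb | hb <;> rcases hc with hc | hc
  · left; have := key X a b ha hb hab; omega
  · left; have := key X a b ha hb hab; omega
  · left; have := key X a c ha hc hac; omega
  · right; have := key Y b c hb hc hbc; omega
  · left; have := key X b c hb hc hbc; omega
  · right; have := key Y a c ha hc hac; omega
  · right; have := key Y a b ha hb hab; omega
  · right; have := key Y a b ha hb hab; omega

theorem Fg_three {r : Finset α → ℕ} (hr : IsRk r) {E : Finset α} (h : r E = 3)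
    (hR : Round r E) {a b c : α}
    (ha : a ∈ E) (hb : b ∈ E) (hc : c ∈ E) (hab : r {a, b} = 2) (hac : r {a, c} = 2)
    (hbc : r {b, c} = 2) (habc : r {a, b, c} = 2) : Fg r 3 E := by
  refine ⟨h, hR, {a, b, c}, ?_, Fg_two hr habc (a := a) (b := b) (c := c) (by simp) (by simp)
    (by simp) hab hac hbc⟩
  intro z hz
  simp only [Finset.mem_insert, Finset.mem_singleton] at hz
  rcases hz with rfl | rfl | rfl <;> assumption

/-- `mu ≤ 3 beta` for non-splitting matroids of rank three -/
theorem round3 {r : Finset α → ℕ} (hr : IsRk r) {E : Finset α} (h3 : r E = 3)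
    (hR : Round r E) : mu r E ≤ 3 * beta r E := by
  by_cases hl : ∃ e ∈ E, r {e} = 0
  · obtain ⟨e, he, h0⟩ := hl
    obtain ⟨h1, h2⟩ := A1.mu_loop r E e he fun X _ => loop_all hr h0 X
    rw [h1, h2]; norm_num
  have hl1 : ∀ e ∈ E, r {e} = 1 := by
    intro e he
    have h1 := single_le hr e
    have h2 : r {e} ≠ 0 := fun h => hl ⟨e, he, h⟩
    omega
  by_cases ht : ∃ a ∈ E, ∃ b ∈ E, ∃ c ∈ E, r {a, b} = 2 ∧ r {a, c} = 2 ∧ r {b, c} = 2 ∧
      r {a, b, c} = 2
  · obtain ⟨a, ha, b, hb, c, hc, hab, hac, hbc, habc⟩ := ht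
    have := main 3 (by norm_num) r hr E (Fg_three hr h3 hR ha hb hc hab hac hbc habc)
    exact_mod_cast this
  obtain ⟨F, hFE, hF1, hFo⟩ := ex_hyp hr (show 1 ≤ r E by omega)
  have hF2 : r F = 2 := by omega
  have hFo' : ∀ e ∈ E \ F, r (insert e F) = 2 + 1 := fun e he => by rw [hFo e he, h3]
  have hsp : r (E \ F) = r E := by
    rcases hR F (E \ F) (Finset.union_sdiff_of_subset hFE) with h | h
    · omega
    · exact h
  obtain ⟨G, hGF, hG1, hGo⟩ := ex_hyp hr (show 1 ≤ r F by omega)
  have hGne : G.Nonempty := by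
    rw [Finset.nonempty_iff_ne_empty]
    intro h
    rw [h, hr.empty] at hG1
    omega
  obtain ⟨a, haG⟩ := hGne
  have haF := hGF haG
  obtain ⟨b, hb⟩ : (F \ G).Nonempty := by
    rw [Finset.nonempty_iff_ne_empty]
    intro h
    rw [Finset.sdiff_eq_empty_iff_subset] at h
    have := hr.mono _ _ h
    omega
  have hbF := (Finset.mem_sdiff.1 hb).1
  have hab : r {a, b} = 2 := by
    have e1 : r (insert b G) = r G + 1 := by rw [hGo b hb]; omega
    have e2 := out_all hr e1 (Finset.singleton_subset_iff.2 haG)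
    rw [hl1 a (hFE haF)] at e2
    rw [Finset.pair_comm]
    exact e2
  have hU : F ∪ (E \ F) = E := Finset.union_sdiff_of_subset hFE
  have hXX : ∀ d ∈ E \ F, ∀ D' ⊆ E \ F, D'.Nonempty → d ∉ D' →
      mu (con r d) (F ∪ D') ≤ (2 : ℕ) * beta (con r d) (F ∪ D') := by
    intro d hd D' hD' hne hdD'
    obtain ⟨hs, hc1, hc2, -, -⟩ := step hr (show 1 ≤ 2 by norm_num) hF2 Finset.disjoint_sdiff hFo'
      (by rw [hU, h3]) hd hdD' hD' hne
    have hca := con_add hr hs
    have hRc := con_isRk hr hs
    by_cases hlo : ∃ e ∈ D', con r d {e} = 0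
    · obtain ⟨e, he, h0⟩ := hlo
      obtain ⟨h1, h2⟩ := A1.mu_loop (con r d) (F ∪ D') e (Finset.mem_union_right _ he)
        fun X _ => loop_all hRc h0 X
      rw [h1, h2]; norm_num
    obtain ⟨e, he⟩ := hne
    have heF := hD' he
    have hde : r {d, e} = 2 := by
      have e1 := hca {e}
      have e2 : con r d {e} ≠ 0 := fun h => hlo ⟨e, he, h⟩
      have e3 := single_le hRc e
      have e4 : insert d ({e} : Finset α) = {d, e} := rfl
      rw [e4] at e1
      omega
    have hout : ∀ f ∈ E \ F, ∀ x ∈ F, r {x, f} = 2 := by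
      intro f hf x hx
      have e1 := out_all hr (show r (insert f F) = r F + 1 by rw [hFo' f hf, hF2])
        (Finset.singleton_subset_iff.2 hx)
      rw [hl1 x (hFE hx)] at e1
      rw [Finset.pair_comm]
      exact e1
    have hcon : ∀ x ∈ F, con r d {x, e} = 2 := by
      intro x hx
      have e1 := hca {x, e}
      have e2 : insert d ({x, e} : Finset α) = {x, d, e} := by
        ext y
        simp only [Finset.mem_insert, Finset.mem_singleton]
        tauto
      rw [e2] at e1
      have e3 : r {x, d, e} ≠ 2 := fun h => ht ⟨x, hFE hx, d, (Finset.mem_sdiff.1 hd).1, e,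
        (Finset.mem_sdiff.1 heF).1, hout d hd x hx, hout e heF x hx, hde, h⟩
      have e4 := hr.mono {d, e} {x, d, e} (Finset.subset_insert _ _)
      have e5 := hr.insert_le {d, e} x
      omega
    have hFg : Fg (con r d) 2 (F ∪ D') :=
      Fg_two hRc hc2 (Finset.mem_union_left _ haF) (Finset.mem_union_left _ hbF)
        (Finset.mem_union_right _ he) (by
          rw [hc1 {a, b} (by
            intro z hz
            rw [Finset.mem_insert, Finset.mem_singleton] at hz
            rcases hz with rfl | rfl <;> assumption), hab]) (hcon a haF) (hcon b hbF)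
    exact main 2 (by norm_num) _ hRc _ hFg
  have hne : (E \ F).Nonempty := by
    rw [Finset.nonempty_iff_ne_empty]
    intro h
    rw [h, hr.empty] at hsp
    omega
  have p := peel' (show 1 ≤ 2 by norm_num) hr hF2 Finset.disjoint_sdiff hFo' (by rw [hU, h3]) hXX
    (E \ F) (Finset.Subset.refl _) hne
  rw [hU] at p
  have l := lem1 _ r F E hr rfl hFE hF1 hFo hsp
  push_cast at p
  linarith

/-- a chain of non-splitting sets of ranks `3, 4, …, j + 3`, the last one is `E` -/
def Fh (r : Finset α → ℕ) : ℕ → Finset α → Prop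
  | 0, E => r E = 3 ∧ Round r E
  | (j+1), E => r E = j + 1 + 3 ∧ Round r E ∧ ∃ H, H ⊆ E ∧ Fh r j H

theorem Fh_rank {r : Finset α → ℕ} {j : ℕ} {E : Finset α} (h : Fh r j E) : r E = j + 3 := by
  cases j with
  | zero => exact h.1
  | succ j => exact h.1

theorem Fh_round {r : Finset α → ℕ} {j : ℕ} {E : Finset α} (h : Fh r j E) : Round r E := by
  cases j with
  | zero => exact h.2
  | succ j => exact h.2.1

theorem Fh_congr {r r' : Finset α → ℕ} : ∀ (j : ℕ) (E : Finset α), (∀ X ⊆ E, r X = r' X) →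
    Fh r j E → Fh r' j E := by
  intro j
  induction j with
  | zero =>
    intro E h hE
    exact ⟨by rw [← h E (Finset.Subset.refl _)]; exact hE.1, round_congr h hE.2⟩
  | succ j ih =>
    intro E h hE
    obtain ⟨h1, h2, H, hH, h3⟩ := hE
    exact ⟨by rw [← h E (Finset.Subset.refl _)]; exact h1, round_congr h h2, H, hH,
      ih H (fun X hX => h X (hX.trans hH)) h3⟩

theorem Fh_ext {r : Finset α → ℕ} (hr : IsRk r) {j : ℕ} {H E : Finset α} (hHE : H ⊆ E)
    (h : r E = j + 3) (h' : Fh r j H) : Fh r j E := by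
  cases j with
  | zero => exact ⟨h, round_ext hr hHE (by rw [h, h'.1]) h'.2⟩
  | succ j =>
    refine ⟨h, round_ext hr hHE (by rw [h, h'.1]) h'.2.1, ?_⟩
    obtain ⟨-, -, H', h1, h2⟩ := h'
    exact ⟨H', h1.trans hHE, h2⟩

theorem splitH {r : Finset α → ℕ} (hr : IsRk r) {j : ℕ} {E : Finset α} (h : Fh r (j + 1) E) :
    ∃ H ⊆ E, Fh r j H ∧ (∀ e ∈ E \ H, r (insert e H) = j + 3 + 1) ∧ r (E \ H) = j + 3 + 1 := by
  obtain ⟨h1, hR, H0, hH0, hF0⟩ := h
  have hk0 := Fh_rank hF0
  obtain ⟨H, hH, hmax⟩ := Finset.exists_max_image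
    (E.powerset.filter (fun F => H0 ⊆ F ∧ r F = j + 3)) (fun F => F.card)
    ⟨H0, by rw [Finset.mem_filter, Finset.mem_powerset]; exact ⟨hH0, Finset.Subset.refl _, hk0⟩⟩
  rw [Finset.mem_filter, Finset.mem_powerset] at hH
  obtain ⟨hHE, hH0H, hHk⟩ := hH
  refine ⟨H, hHE, Fh_ext hr hH0H hHk hF0, ?_, ?_⟩
  · intro e he
    rw [Finset.mem_sdiff] at he
    have a1 := hr.insert_le H e
    have a2 := hr.mono _ _ (Finset.subset_insert e H)
    by_contra hc
    have h3 := hmax (insert e H) (by
      rw [Finset.mem_filter, Finset.mem_powerset]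
      exact ⟨Finset.insert_subset he.1 hHE, hH0H.trans (Finset.subset_insert _ _), by omega⟩)
    rw [Finset.card_insert_of_notMem he.2] at h3
    omega
  · rcases hR H (E \ H) (Finset.union_sdiff_of_subset hHE) with h3 | h3
    · omega
    · omega

theorem hX_of {r : Finset α → ℕ} (hr : IsRk r) {j : ℕ} {H D : Finset α}
    (P : ∀ (r : Finset α → ℕ), IsRk r → ∀ E, Fh r j E → mu r E ≤ ((j + 3 : ℕ) : ℤ) * beta r E)
    (hH : Fh r j H) (hdis : Disjoint H D)
    (hD : ∀ d ∈ D, r (insert d H) = j + 3 + 1) (hrk : r (H ∪ D) ≤ j + 3 + 1) :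
    ∀ d ∈ D, ∀ D' ⊆ D, D'.Nonempty → d ∉ D' →
      mu (con r d) (H ∪ D') ≤ ((j + 3 : ℕ) : ℤ) * beta (con r d) (H ∪ D') := by
  intro d hd D' hD' hne hdD'
  obtain ⟨hs, hc1, hc2, -, -⟩ := step hr (show 1 ≤ j + 3 by omega) (Fh_rank hH) hdis hD hrk hd
    hdD' hD' hne
  have hR := con_isRk hr hs
  exact P _ hR _ (Fh_ext hR Finset.subset_union_left hc2
    (Fh_congr j H (fun X hX => (hc1 X hX).symm) hH))

theorem mainH : ∀ (j : ℕ) (r : Finset α → ℕ), IsRk r → ∀ E, Fh r j E →
    mu r E ≤ ((j + 3 : ℕ) : ℤ) * beta r E := by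
  intro j
  induction j with
  | zero =>
    intro r hr E hE
    have := round3 hr hE.1 hE.2
    simpa using this
  | succ j ih =>
    intro r hr E hE
    have hE1 := Fh_rank hE
    obtain ⟨H, hHE, hFH, hD, hsp⟩ := splitH hr hE
    have hk' := Fh_rank hFH
    have hU : H ∪ (E \ H) = E := Finset.union_sdiff_of_subset hHE
    have hne : (E \ H).Nonempty := by
      rw [Finset.nonempty_iff_ne_empty]
      intro h
      rw [h, hr.empty] at hsp
      omega
    have h1 := peel' (show 1 ≤ j + 3 by omega) hr hk' Finset.disjoint_sdiff hD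
      (by rw [hU, hE1]) (hX_of hr ih hFH Finset.disjoint_sdiff hD (by rw [hU, hE1]))
      (E \ H) (Finset.Subset.refl _) hne
    rw [hU] at h1
    have h2 := lem1 _ r H E hr rfl hHE (by rw [hk', hE1])
      (fun e he => by rw [hD e he, hE1]) (by rw [hsp, hE1])
    push_cast at h1 ⊢
    linarith

theorem crit_gen [Fintype α] (k : ℕ) (hk : 1 ≤ k) (r : Finset α → ℕ) (hr : IsRk r)
    (hs : ∀ a b : α, r {a, b} = ({a, b} : Finset α).card) (hru : r univ = k + 1)
    (H D : Finset α) (hk' : r H = k) (hRH : Round r H) (hdis : Disjoint H D) (hU : H ∪ D = univ)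
    (hD : ∀ e ∈ D, r (insert e H) = k + 1) (hsp : r D = k + 1)
    (q : mu r H ≤ k * beta r H)
    (hX : ∀ d ∈ D, ∀ D' ⊆ D, D'.Nonempty → d ∉ D' →
      mu (con r d) (H ∪ D') ≤ k * beta (con r d) (H ∪ D'))
    (heq : mu r univ = ((k + 1 : ℕ) : ℤ) * beta r univ)
    (hN : 2 * (Fintype.card α : ℤ) = ((k + 1 : ℕ) : ℤ) * (((k + 1 : ℕ) : ℤ) + 1)) :
    Crit r := by
  classical
  have hone : ∀ x, r {x} = 1 := by
    intro x
    have := hs x x
    simpa using this
  have hs2 : ∀ d e, d ≠ e → r {d, e} = 2 := by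
    intro d e h
    rw [hs, Finset.card_pair h]
  have hne : D.Nonempty := by
    rw [Finset.nonempty_iff_ne_empty]
    intro h
    rw [h, hr.empty] at hsp
    omega
  have hHne : H.Nonempty := by
    rw [Finset.nonempty_iff_ne_empty]
    intro h
    rw [h, hr.empty] at hk'
    omega
  have hrk : r (H ∪ D) ≤ k + 1 := by rw [hU, hru]
  have p := peel' hk hr hk' hdis hD hrk hX D (Finset.Subset.refl _) hne
  rw [hU, heq] at p
  push_cast at p
  have b1 := beta_pos hr (by rw [hk']; exact hk) hRH (fun e _ => hone e)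
  have low := beta_low hk hr hk' hdis hD hrk (fun d _ e _ h => hs2 d e h) D
    (Finset.Subset.refl _) hne
  rw [hU] at low
  have hup : beta r univ ≤ k * beta r H := by linarith
  have hcD2 : k + 1 ≤ D.card := by
    have := rk_le_card hr D
    omega
  have hcD : D.card = k + 1 := by
    by_contra hc
    have h1 : (k : ℤ) + 1 ≤ (D.card : ℤ) - 1 := by omega
    nlinarith
  have hline : ∀ d ∈ D, ∀ e ∈ D, d ≠ e → ∃ x ∈ H, r (insert x {d, e}) ≤ 2 := by
    intro d hd e he hde
    by_contra hc
    push Not at hc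
    have h3 : ∀ x ∈ H, r (insert x {d, e}) = 3 := by
      intro x hx
      have a := hc x hx
      have b := hr.insert_le {d, e} x
      rw [hs2 d e hde] at b
      omega
    rcases Nat.lt_or_ge k 2 with hk2 | hk2
    · obtain ⟨x, hx⟩ := hHne
      have a1 := h3 x hx
      have a2 := hr.mono _ univ (Finset.subset_univ (insert x {d, e}))
      omega
    · have h4 := strict hk2 hr hk' hRH hdis hD hrk
        (fun d _ e _ h => hs2 d e h) hd he hde h3
      rw [hU, hcD] at h4
      push_cast at h4
      linarith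
  have hf : ∀ P ∈ D.powersetCard 2, ∃ x, x ∈ H ∧ r (insert x P) ≤ 2 := by
    intro P hP
    obtain ⟨hPD, hPc⟩ := Finset.mem_powersetCard.1 hP
    obtain ⟨d, e, hde, rfl⟩ := Finset.card_eq_two.1 hPc
    exact hline d (hPD (by simp)) e (hPD (by simp)) hde
  have : Nonempty α := ⟨hne.choose⟩
  choose! f hf1 hf2 using hf
  have hDe : ∀ d ∈ D, r (D.erase d) = k := by
    intro d hd
    have a1 := rk_le_card hr (D.erase d)
    rw [Finset.card_erase_of_mem hd, hcD] at a1
    have a2 := hr.insert_le (D.erase d) d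
    rw [Finset.insert_erase hd, hsp] at a2
    omega
  have Z1 : ∀ P ∈ D.powersetCard 2, ∀ d ∈ P, ∀ x ∈ H, r (insert x P) ≤ 2 →
      k + 1 ≤ r (insert x (D.erase d)) := by
    intro P hP d hd x hx hxP
    obtain ⟨hPD, hPc⟩ := Finset.mem_powersetCard.1 hP
    obtain ⟨e, he, hed⟩ : ∃ e ∈ P, e ≠ d := Finset.exists_mem_ne (by omega) d
    by_contra hc
    have hxe : e ≠ x := by
      rintro rfl
      exact Finset.disjoint_left.1 hdis hx (hPD he)
    have c0 : insert d ({e, x} : Finset α) ⊆ insert x P := by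
      intro y hy
      simp only [Finset.mem_insert, Finset.mem_singleton] at hy
      rcases hy with rfl | rfl | rfl
      · exact Finset.mem_insert_of_mem hd
      · exact Finset.mem_insert_of_mem he
      · exact Finset.mem_insert_self _ _
    have c1 : r (insert d {e, x}) ≤ r {e, x} := by
      rw [hs2 e x hxe]
      exact (hr.mono _ _ c0).trans hxP
    have c2 := cl_le hr (X := {e, x}) (Y := insert x (D.erase d)) (e := d) (by
      intro y hy
      simp only [Finset.mem_insert, Finset.mem_singleton] at hy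
      rcases hy with rfl | rfl
      · exact Finset.mem_insert_of_mem (Finset.mem_erase.2 ⟨hed, hPD he⟩)
      · exact Finset.mem_insert_self _ _) c1
    have c3 := hr.mono D (insert d (insert x (D.erase d))) (by
      intro y hy
      by_cases h : y = d
      · rw [h]; exact Finset.mem_insert_self _ _
      · exact Finset.mem_insert_of_mem (Finset.mem_insert_of_mem
          (Finset.mem_erase.2 ⟨h, hy⟩)))
    omega
  have Z2 : ∀ P ∈ D.powersetCard 2, ∀ d, d ∉ P → ∀ x, r (insert x P) ≤ 2 →
      r (insert x (D.erase d)) ≤ r (D.erase d) := by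
    intro P hP d hd x hxP
    obtain ⟨hPD, hPc⟩ := Finset.mem_powersetCard.1 hP
    have hPr : r P = 2 := by
      obtain ⟨a, b, hab, rfl⟩ := Finset.card_eq_two.1 hPc
      exact hs2 a b hab
    refine cl_le hr (X := P) ?_ (by rw [hPr]; exact hxP)
    intro y hy
    exact Finset.mem_erase.2 ⟨fun h => hd (h ▸ hy), hPD hy⟩
  have hex : ∀ P ∈ D.powersetCard 2, ∀ Q ∈ D.powersetCard 2, P ≠ Q → ∃ d ∈ P, d ∉ Q := by
    intro P hP Q hQ hPQ
    by_contra hc
    push Not at hc
    have h1 := (Finset.mem_powersetCard.1 hP).2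
    have h2 := (Finset.mem_powersetCard.1 hQ).2
    exact hPQ (Finset.eq_of_subset_of_card_le (fun y hy => hc y hy) (by omega))
  have hinj : Set.InjOn f ((D.powersetCard 2 : Finset (Finset α)) : Set (Finset α)) := by
    intro P hP Q hQ hPQ
    by_contra hne'
    have hP' : P ∈ D.powersetCard 2 := hP
    have hQ' : Q ∈ D.powersetCard 2 := hQ
    obtain ⟨d, hd, hdQ⟩ := hex P hP' Q hQ' hne'
    have z1 := Z1 P hP' d hd (f P) (hf1 P hP') (hf2 P hP')
    have z2 := Z2 Q hQ' d hdQ (f Q) (hf2 Q hQ')
    have hdD : d ∈ D := (Finset.mem_powersetCard.1 hP').1 hd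
    rw [hDe d hdD, ← hPQ] at z2
    omega
  have himg : (D.powersetCard 2).image f = H := by
    refine Finset.eq_of_subset_of_card_le ?_ ?_
    · intro x hx
      obtain ⟨P, hP, rfl⟩ := Finset.mem_image.1 hx
      exact hf1 P hP
    · rw [Finset.card_image_of_injOn hinj, Finset.card_powersetCard, hcD]
      have h1 : H.card + D.card = Fintype.card α := by
        rw [← Finset.card_union_of_disjoint hdis, hU, Finset.card_univ]
      have h2 : 2 * (k + 1).choose 2 = (k + 1) * k := by
        rw [Nat.choose_two_right]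
        exact Nat.mul_div_cancel' (Nat.even_mul_pred_self (k + 1)).two_dvd
      have h3 : (2 * (H.card : ℤ)) = (k + 1) * k := by
        have h4 : (H.card : ℤ) + (k + 1) = Fintype.card α := by
          have : ((H.card + D.card : ℕ) : ℤ) = (Fintype.card α : ℤ) := by exact_mod_cast h1
          rw [hcD] at this
          push_cast at this
          exact this
        push_cast at hN
        linear_combination 2 * h4 + hN
      have h5 : 2 * H.card = (k + 1) * k := by exact_mod_cast h3
      omega
  have hfl : ∀ d ∈ D, ∃ F : Finset α, D.erase d ⊆ F ∧ Flat r F ∧ r F = k := by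
    intro d hd
    obtain ⟨F, h1, h2, h3⟩ := Link.exists_flat r hr (D.erase d)
    exact ⟨F, h1, h2, by rw [h3, hDe d hd]⟩
  have hmemF : ∀ (F X : Finset α) (y : α), Flat r F → X ⊆ F → r (insert y X) ≤ r X → y ∈ F := by
    intro F X y hFl hX h
    by_contra hy
    have h1 := hFl y hy
    have h2 := cl_le hr hX h
    omega
  intro x
  by_cases hx : x ∈ H
  · rw [← himg] at hx
    obtain ⟨P, hP, rfl⟩ := Finset.mem_image.1 hx
    obtain ⟨hPD, hPc⟩ := Finset.mem_powersetCard.1 hP
    obtain ⟨a, c, hac, hPac⟩ := Finset.card_eq_two.1 hPc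
    have haP : a ∈ P := by rw [hPac]; simp
    have hcP : c ∈ P := by rw [hPac]; simp
    obtain ⟨F₁, f1, f2, f3⟩ := hfl a (hPD haP)
    obtain ⟨F₂, g1, g2, g3⟩ := hfl c (hPD hcP)
    refine ⟨F₁, F₂, f2, g2, ?_, ?_, ?_⟩
    · intro hxF
      have z1 := Z1 P hP a haP (f P) (hf1 P hP) (hf2 P hP)
      have := hr.mono _ F₁ (Finset.insert_subset hxF f1)
      omega
    · intro hxF
      have z1 := Z1 P hP c hcP (f P) (hf1 P hP) (hf2 P hP)
      have := hr.mono _ F₂ (Finset.insert_subset hxF g1)
      omega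
    · intro y hy
      by_cases hyH : y ∈ H
      · rw [← himg] at hyH
        obtain ⟨Q, hQ, rfl⟩ := Finset.mem_image.1 hyH
        have hPQ : P ≠ Q := fun h => hy (by rw [h])
        obtain ⟨d, hd, hdQ⟩ := hex P hP Q hQ hPQ
        have z2 := Z2 Q hQ d hdQ (f Q) (hf2 Q hQ)
        rw [hPac, Finset.mem_insert, Finset.mem_singleton] at hd
        rcases hd with rfl | rfl
        · exact Or.inl (hmemF F₁ _ _ f2 f1 z2)
        · exact Or.inr (hmemF F₂ _ _ g2 g1 z2)
      · have hyD : y ∈ D := by
          have : y ∈ H ∪ D := by rw [hU]; exact Finset.mem_univ y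
          rcases Finset.mem_union.1 this with h | h
          · exact absurd h hyH
          · exact h
        by_cases hya : y = a
        · exact Or.inr (g1 (Finset.mem_erase.2 ⟨by rw [hya]; exact hac, hyD⟩))
        · exact Or.inl (f1 (Finset.mem_erase.2 ⟨hya, hyD⟩))
  · have hxD : x ∈ D := by
      have : x ∈ H ∪ D := by rw [hU]; exact Finset.mem_univ x
      rcases Finset.mem_union.1 this with h | h
      · exact absurd h hx
      · exact h
    obtain ⟨F, f1, f2, f3⟩ := hfl x hxD
    refine ⟨H, F, ?_, f2, hx, ?_, ?_⟩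
    · intro e he
      have heD : e ∈ D := by
        have : e ∈ H ∪ D := by rw [hU]; exact Finset.mem_univ e
        rcases Finset.mem_union.1 this with h | h
        · exact absurd h he
        · exact h
      rw [hD e heD, hk']
      omega
    · intro hxF
      have h1 : D ⊆ F := by
        intro y hy
        by_cases h : y = x
        · rw [h]; exact hxF
        · exact f1 (Finset.mem_erase.2 ⟨h, hy⟩)
      have := hr.mono _ _ h1
      omega
    · intro y hy
      have : y ∈ H ∪ D := by rw [hU]; exact Finset.mem_univ y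
      rcases Finset.mem_union.1 this with h | h
      · exact Or.inl h
      · exact Or.inr (f1 (Finset.mem_erase.2 ⟨hy, h⟩))

end Pool.Agent.W573.RF
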