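import Pool.Agent.W573.RF.D
import Pool.Agent.W573.RF.E

set_option autoImplicit false

namespace Pool.Agent.W573.RF
open Finset DC813

theorem crit_H {α : Type} [Fintype α] [DecidableEq α] (j : ℕ) (r : Finset α → ℕ) (hr : IsRk r)
    (hs : ∀ a b : α, r {a, b} = ({a, b} : Finset α).card) (hF : Fh r (j + 1) univ)
    (heq : mu r univ = ((j + 3 + 1 : ℕ) : ℤ) * beta r univ)
    (hN : 2 * (Fintype.card α : ℤ) = ((j + 3 + 1 : ℕ) : ℤ) * (((j + 3 + 1 : ℕ) : ℤ) + 1)) :
    Crit r := by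
  have hru := Fh_rank hF
  obtain ⟨H, hHE, hFH, hD, hsp⟩ := splitH hr hF
  have hU : H ∪ (univ \ H) = univ := Finset.union_sdiff_of_subset hHE
  have hrk : r (H ∪ (univ \ H)) ≤ j + 3 + 1 := by rw [hU, hru]
  exact crit_gen (j + 3) (by omega) r hr hs (by rw [hru]) H (univ \ H) (Fh_rank hFH)
    (Fh_round hFH) Finset.disjoint_sdiff hU hD hsp (mainH j r hr H hFH)
    (hX_of hr (mainH j) hFH Finset.disjoint_sdiff hD hrk) heq hN

/-- rank at most three -/
theorem small_Fg {α : Type} [Fintype α] [DecidableEq α] (n : ℕ) (hn : 1 ≤ n) (hn3 : n ≤ 3)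
    (r : Finset α → ℕ) (hr : IsRk r)
    (hs : ∀ a b : α, r {a, b} = ({a, b} : Finset α).card)
    (hχ : (∑ X : Finset α, (-1 : Polynomial ℤ) ^ X.card * Polynomial.X ^ (r Finset.univ - r X))
        = ∏ i ∈ Finset.Icc 1 n, (Polynomial.X - Polynomial.C (i : ℤ)))
    (hR : Round r univ) : Fg r n univ := by
  have hrk := RankN.rank_eq n r hr hs hχ
  have hcard := card_eq n r hr hs hχ
  have hs2 : ∀ d e, d ≠ e → r {d, e} = 2 := by
    intro d e h
    rw [hs, Finset.card_pair h]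
  have h123 : n = 1 ∨ n = 2 ∨ n = 3 := by omega
  rcases h123 with rfl | rfl | rfl
  · exact Fg_one hr hrk
  · have hc : (univ : Finset α).card = 3 := by
      rw [Finset.card_univ]
      push_cast at hcard
      omega
    obtain ⟨a, b, c, hab, hac, hbc, h⟩ := Finset.card_eq_three.1 hc
    exact Fg_two hr hrk (Finset.mem_univ a) (Finset.mem_univ b) (Finset.mem_univ c)
      (hs2 a b hab) (hs2 a c hac) (hs2 b c hbc)
  · by_contra hno
    have htri : ∀ t : Finset α, t.card = 3 → r t ≠ 2 := by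
      intro t ht h2
      obtain ⟨a, b, c, hab, hac, hbc, rfl⟩ := Finset.card_eq_three.1 ht
      exact hno (Fg_three hr hrk hR (Finset.mem_univ a) (Finset.mem_univ b) (Finset.mem_univ c)
        (hs2 a b hab) (hs2 a c hac) (hs2 b c hbc) h2)
    obtain ⟨-, -, hT, -⟩ := B6.coeffs 3 (by norm_num) r hr hs
      (fun t ht h2 => absurd h2 (htri t ht)) hχ
    have h0 : tri r = ∅ := by
      unfold tri
      rw [Finset.filter_eq_empty_iff]
      intro t _ h
      exact htri t h.1 h.2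
    rw [h0] at hT
    norm_num at hT

theorem crit_final {α : Type} [Fintype α] [DecidableEq α] (n : ℕ) (hn : 1 ≤ n)
    (r : Finset α → ℕ) (hr : IsRk r)
    (hs : ∀ a b : α, r {a, b} = ({a, b} : Finset α).card)
    (hχ : (∑ X : Finset α, (-1 : Polynomial ℤ) ^ X.card * Polynomial.X ^ (r Finset.univ - r X))
        = ∏ i ∈ Finset.Icc 1 n, (Polynomial.X - Polynomial.C (i : ℤ)))
    (hR : Round r univ)
    (hF : 4 ≤ n → ∀ j, j + 4 = n → ∃ H : Finset α, Fh r j H) : Crit r := by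
  have hrk := RankN.rank_eq n r hr hs hχ
  rcases Nat.lt_or_ge n 4 with h4 | h4
  · exact crit_all n hn r hr hs hχ (small_Fg n hn (by omega) r hr hs hχ hR)
  · obtain ⟨j, rfl⟩ : ∃ j, n = j + 3 + 1 := ⟨n - 4, by omega⟩
    obtain ⟨H, hH⟩ := hF h4 j (by omega)
    obtain ⟨x, -⟩ : (univ : Finset α).Nonempty := by
      rw [Finset.nonempty_iff_ne_empty]
      intro h
      rw [h, hr.empty] at hrk
      omega
    exact crit_H j r hr hs ⟨by rw [hrk], hR, H, Finset.subset_univ _, hH⟩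
      (chi_mu_beta _ hn r hr x hrk hχ) (card_eq _ r hr hs hχ)

end Pool.Agent.W573.RF
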